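import Pool.Agent.Y121.ZI.Stm2

/-!
Project ZI (owner helper121), part IDX: the index law from its ingredients.
-/

open scoped TensorProduct ENNReal NNReal

open Filter Topology

universe u v w

namespace Pool.Agent.Y417.ZI

open Module Pool.Agent.Y121.ZI Pool.Agent.Y121.ZI.NCTheory

/-! ### Sequences -/

lemma lt_div_of {a : ℝ≥0∞} (ha : a ≠ ⊤) {c l : ℕ} (hl : 0 < l) (h : a.toReal * l < c) :
    a < (c : ℝ≥0∞) / l := by
  lift a to ℝ≥0 using ha
  rw [ENNReal.coe_toReal] at h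
  rw [ENNReal.lt_div_iff_mul_lt (Or.inl (by exact_mod_cast hl.ne')) (Or.inl (ENNReal.natCast_ne_top l))]
  exact_mod_cast h

lemma le_mul_of {c l N : ℕ} (h : c ≤ N * l) : (c : ℝ≥0∞) ≤ (N : ℝ≥0∞) * l := by
  exact_mod_cast h

lemma tendsto_fin {c al : ℕ → ℕ} (hal : ∀ n, 0 < al n) (N : ℕ) (hub : ∀ n, c n ≤ N * al n)
    (hlb : ∀ δ : ℝ, 0 < δ → ∃ n₀ : ℕ, ∀ n ≥ n₀, ((N : ℝ) - δ) * al n ≤ c n) :
    Tendsto (fun n => (c n : ℝ≥0∞) / al n) atTop (𝓝 (N : ℝ≥0∞)) := by
  refine tendsto_order.2 ⟨fun a ha => ?_, fun a ha => ?_⟩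
  · have ha' : a ≠ ⊤ := ne_top_of_lt ha
    have h1 : a.toReal < N := by
      rw [← ENNReal.toReal_natCast]
      exact (ENNReal.toReal_lt_toReal ha' (ENNReal.natCast_ne_top N)).2 ha
    obtain ⟨n₀, hn₀⟩ := hlb (((N : ℝ) - a.toReal) / 2) (by linarith)
    filter_upwards [eventually_ge_atTop n₀] with n hn
    apply lt_div_of ha' (hal n)
    have h2 := hn₀ n hn
    have h3 : (0 : ℝ) < al n := by exact_mod_cast hal n
    nlinarith
  · refine Eventually.of_forall fun n => lt_of_le_of_lt ?_ ha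
    rw [ENNReal.div_le_iff_le_mul (Or.inl (by exact_mod_cast (hal n).ne'))
      (Or.inl (ENNReal.natCast_ne_top _))]
    exact le_mul_of (hub n)

lemma tendsto_inf {c al : ℕ → ℕ} (hal : ∀ n, 0 < al n)
    (hlb : ∀ k : ℕ, ∃ n₀ : ℕ, ∀ n ≥ n₀, ((k : ℝ) + 1 / 2) * al n ≤ c n) :
    Tendsto (fun n => (c n : ℝ≥0∞) / al n) atTop (𝓝 ⊤) := by
  refine ENNReal.tendsto_nhds_top fun k => ?_
  obtain ⟨n₀, hn₀⟩ := hlb k
  filter_upwards [eventually_ge_atTop n₀] with n hn
  apply lt_div_of (ENNReal.natCast_ne_top k) (hal n)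
  have h2 := hn₀ n hn
  have h3 : (0 : ℝ) < al n := by exact_mod_cast hal n
  rw [ENNReal.toReal_natCast]
  nlinarith

/-! ### Generated spaces -/

variable {K : Type u} [Field K] {T : NCTheory.{u, v, w} K}

lemma gn_le_of {P Q : T.Obj} {M : Submodule K (T.H P)} {N : Submodule K (T.H Q)}
    (h : ∀ v ∈ T.S P Q, ∀ m ∈ M, v m ∈ N) : gn P Q M ≤ N := by
  rw [gn, Submodule.span_le]
  rintro _ ⟨v, hv, m, hm, rfl⟩
  exact h v hv m hm

lemma mem_gn {P Q : T.Obj} {M : Submodule K (T.H P)} {v : T.H P →ₗ[K] T.H Q} (hv : v ∈ T.S P Q)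
    {m : T.H P} (hm : m ∈ M) : v m ∈ gn P Q M :=
  Submodule.subset_span ⟨v, hv, m, hm, rfl⟩

lemma gn_mono {P Q : T.Obj} {M M' : Submodule K (T.H P)} (h : M ≤ M') : gn P Q M ≤ gn P Q M' :=
  gn_le_of fun _ hv _ hm => mem_gn hv (h hm)

lemma gn_le_C (C : Cls T) (P Q : T.Obj) : gn P Q (C.C P) ≤ C.C Q :=
  gn_le_of fun v hv m hm => C.map v hv m hm

lemma gn_bot (P Q : T.Obj) : gn P Q (⊥ : Submodule K (T.H P)) = ⊥ := by
  rw [eq_bot_iff]
  refine gn_le_of fun v _ m hm => ?_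
  rw [(Submodule.mem_bot K).1 hm, map_zero]
  exact Submodule.zero_mem _

lemma le_gn {P : T.Obj} (M : Submodule K (T.H P)) : M ≤ gn P P M := fun _ hx => mem_gn S_id hx

lemma gn_trans {P Q R : T.Obj} {M : Submodule K (T.H P)} {x : T.H Q} (hx : x ∈ gn P Q M)
    {v : T.H Q →ₗ[K] T.H R} (hv : v ∈ T.S Q R) : v x ∈ gn P R M := by
  have h : gn P Q M ≤ (gn P R M).comap v :=
    gn_le_of fun u hu m hm => mem_gn (S_comp hu hv) hm
  exact h hx

lemma stab_gn {P Q : T.Obj} (M : Submodule K (T.H P)) : Stab Q (gn P Q M) :=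
  fun _ ha _ hm => gn_trans hm ha

lemma stab_C (C : Cls T) (P : T.Obj) : Stab P (C.C P) := fun a ha m hm => C.map a ha m hm

lemma stab_bot (P : T.Obj) : Stab P (⊥ : Submodule K (T.H P)) := by
  intro a _ m hm
  rw [(Submodule.mem_bot K).1 hm, map_zero]
  exact Submodule.zero_mem _

/-- The decomposition of a pair of stable spaces and the growth of the generated spaces. -/
theorem step (hm : SMove T) (hd : SDec T) (hl : SLim T) {A : T.Obj} (hF : Full A)
    (hD : 0 < finrank K (T.H A)) (hN : ∀ n, Nn T.one (zz A n) = ⊥) (m : ℕ)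
    (M' M : Submodule K (T.H (zz A m))) (h' : Stab _ M') (h : Stab _ M) (hle : M' ≤ M) :
    ∃ (r R : ℕ) (z : Fin r → T.H (zz A m)), r ≤ R ∧ (∀ i, z i ∈ M) ∧
      (∀ x ∈ M, ∃ m' ∈ M', ∃ y : Fin r → (T.H (zz A m) →ₗ[K] T.H (zz A m)),
        (∀ i, y i ∈ T.S (zz A m) (zz A m)) ∧ x = m' + ∑ i, y i (z i)) ∧
      (∀ n, finrank K (gn (zz A m) (zz A n) M) ≤
        finrank K (gn (zz A m) (zz A n) M') + R * al A n) ∧
      ∀ δ : ℝ, 0 < δ → ∃ n₀ : ℕ, ∀ n ≥ n₀,
        (finrank K (gn (zz A m) (zz A n) M') : ℝ) + ((R : ℝ) - δ) * al A n ≤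
          finrank K (gn (zz A m) (zz A n) M) := by
  obtain ⟨r, g, z, hg, hx, hdim⟩ := hd (zz A m) (hm A hN m m) M' M h' h hle
  have hl' := hl A
  refine ⟨r, ∑ i, finrank K (LinearMap.range (g i)), z, ?_, fun i => (hg i).2.2.2, hx, ?_, ?_⟩
  · calc r = ∑ _i : Fin r, 1 := by simp
      _ ≤ ∑ i, finrank K (LinearMap.range (g i)) := by
        refine Finset.sum_le_sum fun i _ => ?_
        rw [Nat.one_le_iff_ne_zero]
        intro h0
        rw [Submodule.finrank_eq_zero, LinearMap.range_eq_bot] at h0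
        exact (hg i).2.2.1 h0
  · intro n
    rw [hdim _ (hm A hN m n), Finset.sum_mul]
    exact Nat.add_le_add_left (Finset.sum_le_sum fun i _ =>
      hl'.1 m n (g i) (hg i).1 (hg i).2.1) _
  · intro δ hδ
    have hδ' : 0 < δ / (r + 1) := by positivity
    have h1 : ∀ i : Fin r, ∃ n₀ : ℕ, ∀ n ≥ n₀,
        ((finrank K (LinearMap.range (g i)) : ℝ) - δ / (r + 1)) * al A n ≤
          a (zz A m) (g i) (zz A n) LinearMap.id := fun i =>
      hl'.2 hF hD m (g i) (hg i).1 (hg i).2.1 _ hδ'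
    choose n₁ hn₁ using h1
    refine ⟨Finset.univ.sup n₁, fun n hn => ?_⟩
    rw [hdim _ (hm A hN m n)]
    push_cast
    have h2 : ∑ i : Fin r, ((finrank K (LinearMap.range (g i)) : ℝ) - δ / (r + 1)) * al A n ≤
        ∑ i : Fin r, (a (zz A m) (g i) (zz A n) LinearMap.id : ℝ) :=
      Finset.sum_le_sum fun i _ => hn₁ i n ((Finset.le_sup (Finset.mem_univ i)).trans hn)
    rw [← Finset.sum_mul, Finset.sum_sub_distrib, Finset.sum_const, Finset.card_univ,
      Fintype.card_fin, nsmul_eq_mul] at h2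
    have h3 : (r : ℝ) * (δ / (r + 1)) ≤ δ := by
      rw [mul_div_assoc', div_le_iff₀ (by positivity)]
      nlinarith
    have h4 : (0 : ℝ) ≤ al A n := Nat.cast_nonneg _
    have h5 : (∑ i : Fin r, (finrank K (LinearMap.range (g i)) : ℝ) - δ) * al A n ≤
        (∑ i : Fin r, (finrank K (LinearMap.range (g i)) : ℝ) - (r : ℝ) * (δ / (r + 1))) * al A n :=
      mul_le_mul_of_nonneg_right (by linarith) h4
    linarith

lemma Ce_zz_ne_bot (hco : SCoev T) {A : T.Obj} (hD : 0 < finrank K (T.H A)) (m : ℕ) :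
    Ce (zz A m) ≠ ⊥ := by
  intro hb
  obtain ⟨c, hc, hinj⟩ := hco (T.pow A m)
  have hce : c T.e ∈ Ce (zz A m) := ⟨c, hc, rfl⟩
  have hce' : c T.e = 0 := by
    rw [hb] at hce
    exact (Submodule.mem_bot K).1 hce
  have h2 : (LinearMap.id : T.H (T.pow A m) →ₗ[K] T.H (T.pow A m)) = 0 :=
    hinj _ ((congrArg _ hce').trans (map_zero _))
  have h3 : 0 < finrank K (T.H (T.pow A m)) := by
    rw [finrank_pow]; exact Nat.pow_pos hD
  have h4 : Nontrivial (T.H (T.pow A m)) := Module.nontrivial_of_finrank_pos h3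
  obtain ⟨x, hx⟩ := exists_ne (0 : T.H (T.pow A m))
  exact hx (congrArg (fun f => f x) h2)

/-- If `r = 0` then `M = M'`. -/
lemma pos_of_lt {P : T.Obj} {M' M : Submodule K (T.H P)} {r : ℕ} {z : Fin r → T.H P}
    (hx : ∀ x ∈ M, ∃ m' ∈ M', ∃ y : Fin r → (T.H P →ₗ[K] T.H P),
        (∀ i, y i ∈ T.S P P) ∧ x = m' + ∑ i, y i (z i)) (h : ¬ M ≤ M') : 0 < r := by
  rw [Nat.pos_iff_ne_zero]
  rintro rfl
  apply h
  intro x hxM
  obtain ⟨m', hm', y, -, rfl⟩ := hx x hxM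
  simpa using hm'

lemma gen_of {P Q : T.Obj} {M : Submodule K (T.H P)} {r : ℕ} {z : Fin r → T.H P}
    (hx : ∀ x ∈ M, ∃ m' ∈ Ce P, ∃ y : Fin r → (T.H P →ₗ[K] T.H P),
        (∀ i, y i ∈ T.S P P) ∧ x = m' + ∑ i, y i (z i)) {x : T.H Q} (hxQ : x ∈ gn P Q M) :
    ∃ c ∈ Ce Q, ∃ y : Fin r → (T.H P →ₗ[K] T.H Q), (∀ i, y i ∈ T.S P Q) ∧
      x = c + ∑ i, y i (z i) := by
  rw [gn] at hxQ
  induction hxQ using Submodule.span_induction with
  | mem x hx' =>
    obtain ⟨v, hv, m, hm', rfl⟩ := hx'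
    obtain ⟨c, hc, y, hy, rfl⟩ := hx m hm'
    refine ⟨v c, (CeC T).map v hv c hc, fun i => v ∘ₗ y i, fun i => S_comp (hy i) hv, ?_⟩
    rw [map_add, map_sum]
    rfl
  | zero =>
    exact ⟨0, Submodule.zero_mem _, fun _ => 0, fun _ => Submodule.zero_mem _, by simp⟩
  | add x x' _ _ h1 h2 =>
    obtain ⟨c, hc, y, hy, rfl⟩ := h1
    obtain ⟨c', hc', y', hy', rfl⟩ := h2
    refine ⟨c + c', Submodule.add_mem _ hc hc', fun i => y i + y' i,
      fun i => Submodule.add_mem _ (hy i) (hy' i), ?_⟩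
    simp only [LinearMap.add_apply, Finset.sum_add_distrib]
    abel
  | smul t x _ h1 =>
    obtain ⟨c, hc, y, hy, rfl⟩ := h1
    refine ⟨t • c, Submodule.smul_mem _ _ hc, fun i => t • y i,
      fun i => Submodule.smul_mem _ _ (hy i), ?_⟩
    simp only [LinearMap.smul_apply, smul_add, Finset.smul_sum]

variable (T)

theorem idx [CharZero K] (hco : SCoev T) (hr : SRetr T) (hm : SMove T) (hd : SDec T)
    (hl : SLim T) : SIdx T := by
  intro C A hF hal hD hN
  -- the numbers `R m`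
  have hstep := fun m => step hm hd hl hF hD hN m ⊥ (C.C (zz A m)) (stab_bot _) (stab_C C _) bot_le
  choose r R z hrR hz hgen hub hlb using hstep
  have hub' : ∀ n, finrank K (C.C (zz A n)) ≤ R n * al A n := by
    intro n
    have h1 := hub n n
    rw [gn_bot, finrank_bot, zero_add] at h1
    exact (Submodule.finrank_mono (le_gn _)).trans h1
  have hlbG : ∀ m, ∀ δ : ℝ, 0 < δ → ∃ n₀ : ℕ, ∀ n ≥ n₀, ((R m : ℝ) - δ) * al A n ≤
      finrank K (gn (zz A m) (zz A n) (C.C (zz A m))) := by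
    intro m δ hδ
    obtain ⟨n₀, hn₀⟩ := hlb m δ hδ
    refine ⟨n₀, fun n hn => ?_⟩
    have h1 := hn₀ n hn
    rw [gn_bot, finrank_bot, Nat.cast_zero, zero_add] at h1
    exact h1
  have hlb' : ∀ m, ∀ δ : ℝ, 0 < δ → ∃ n₀ : ℕ, ∀ n ≥ n₀, ((R m : ℝ) - δ) * al A n ≤
      finrank K (C.C (zz A n)) := by
    intro m δ hδ
    obtain ⟨n₀, hn₀⟩ := hlbG m δ hδ
    refine ⟨n₀, fun n hn => (hn₀ n hn).trans ?_⟩
    exact_mod_cast Submodule.finrank_mono (gn_le_C C _ _)
  by_cases hbd : ∃ m0, ∀ m, R m ≤ R m0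
  swap
  · -- the index is infinite
    push Not at hbd
    have hk : ∀ k : ℕ, ∃ m, k < R m := by
      intro k
      induction k with
      | zero =>
        obtain ⟨m, hm'⟩ := hbd 0
        exact ⟨m, by omega⟩
      | succ k ih =>
        obtain ⟨m, hm'⟩ := ih
        obtain ⟨m', hm''⟩ := hbd m
        exact ⟨m', by omega⟩
    refine ⟨⊤, le_top, ?_, ?_, fun h => absurd rfl h⟩
    · rw [ENat.toENNReal_top]
      refine tendsto_inf hal fun k => ?_
      obtain ⟨m, hm'⟩ := hk k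
      obtain ⟨n₀, hn₀⟩ := hlb' m (1 / 2) (by norm_num)
      refine ⟨n₀, fun n hn => le_trans ?_ (hn₀ n hn)⟩
      have h1 : (k : ℝ) + 1 ≤ R m := by exact_mod_cast hm'
      exact mul_le_mul_of_nonneg_right (by linarith) (Nat.cast_nonneg _)
    · intro n
      rw [ENat.toENNReal_top, ENNReal.top_mul (by exact_mod_cast (hal n).ne')]
      exact le_top
  -- the index is finite
  obtain ⟨m0, hm0⟩ := hbd
  have hubN : ∀ n, finrank K (C.C (zz A n)) ≤ R m0 * al A n := fun n =>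
    (hub' n).trans (Nat.mul_le_mul_right _ (hm0 n))
  have hcomp : ∀ X : ℝ, (∃ n₀ : ℕ, ∀ n ≥ n₀, X * al A n ≤ finrank K (C.C (zz A n))) →
      X ≤ R m0 := by
    rintro X ⟨n₀, hn₀⟩
    have h1 := hn₀ n₀ le_rfl
    have h2 : (finrank K (C.C (zz A n₀)) : ℝ) ≤ R m0 * al A n₀ := by exact_mod_cast hubN n₀
    have h3 : (0 : ℝ) < al A n₀ := by exact_mod_cast hal n₀
    exact le_of_mul_le_mul_right (h1.trans h2) h3
  -- generation
  have hG : ∀ n, C.C (zz A n) ≤ gn (zz A m0) (zz A n) (C.C (zz A m0)) := by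
    intro n
    rcases le_total n m0 with hn | hn
    · obtain ⟨i, hi, p, hp, hpi⟩ := hr A hal n m0 hn
      intro x hx
      have h1 : x = p (i x) := (congrArg (fun f => f x) hpi).symm
      rw [h1]
      exact mem_gn hp (C.map i hi x hx)
    · obtain ⟨i, hi, p, hp, hpi⟩ := hr A hal m0 n hn
      by_contra hnot
      obtain ⟨r1, R1, z1, hr1, -, hx1, -, hlb1⟩ := step hm hd hl hF hD hN n
        (gn (zz A m0) (zz A n) (C.C (zz A m0))) (C.C (zz A n)) (stab_gn _) (stab_C C _)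
        (gn_le_C C _ _)
      have hpos := pos_of_lt hx1 hnot
      have hR1 : 1 ≤ R1 := by omega
      obtain ⟨n1, hn1⟩ := hlb1 (1 / 4) (by norm_num)
      obtain ⟨n2, hn2⟩ := hlbG m0 (1 / 4) (by norm_num)
      have h5 := hcomp ((R m0 : ℝ) + 1 / 2) ⟨max n1 n2, fun k hk => by
        have h1 := hn1 k (le_trans (le_max_left _ _) hk)
        have h2 := hn2 k (le_trans (le_max_right _ _) hk)
        have h3 : (finrank K (gn (zz A n) (zz A k) (C.C (zz A n))) : ℝ) ≤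
            finrank K (C.C (zz A k)) := by
          exact_mod_cast Submodule.finrank_mono (gn_le_C C _ _)
        have h4 : (finrank K (gn (zz A m0) (zz A k) (C.C (zz A m0))) : ℝ) ≤
            finrank K (gn (zz A n) (zz A k) (gn (zz A m0) (zz A n) (C.C (zz A m0)))) := by
          have : gn (zz A m0) (zz A k) (C.C (zz A m0)) ≤
              gn (zz A n) (zz A k) (gn (zz A m0) (zz A n) (C.C (zz A m0))) := by
            refine gn_le_of fun v hv m hm' => ?_
            have h6 : v m = (v ∘ₗ p) (i m) := by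
              have h7 : p (i m) = m := congrArg (fun f => f m) hpi
              rw [LinearMap.comp_apply, h7]
            rw [h6]
            exact mem_gn (S_comp hp hv) (mem_gn hi hm')
          exact_mod_cast Submodule.finrank_mono this
        have h8 : (1 : ℝ) ≤ R1 := by exact_mod_cast hR1
        have h9 : (0 : ℝ) ≤ al A k := Nat.cast_nonneg _
        have h10 : (al A k : ℝ) ≤ R1 * al A k := by nlinarith
        nlinarith⟩
      linarith
  -- the first classes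
  have hstab : Stab (zz A m0) (Ce (zz A m0)) := stab_C (CeC T) _
  obtain ⟨r2, R2, z2, hr2, -, hx2, -, hlb2⟩ := step hm hd hl hF hD hN m0 ⊥ (Ce (zz A m0))
    (stab_bot _) hstab bot_le
  have hpos2 : 0 < r2 := pos_of_lt hx2 (fun h => Ce_zz_ne_bot hco hD m0 (le_bot_iff.1 h))
  obtain ⟨r3, R3, z3, hr3, hz3, hx3, -, hlb3⟩ := step hm hd hl hF hD hN m0 (Ce (zz A m0))
    (C.C (zz A m0)) hstab (stab_C C _) (Ce_le C _)
  have hN3 : r3 + 1 ≤ R m0 := by
    obtain ⟨n1, hn1⟩ := hlb2 (1 / 4) (by norm_num)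
    obtain ⟨n2, hn2⟩ := hlb3 (1 / 4) (by norm_num)
    have h5 := hcomp ((R2 : ℝ) + R3 - 1 / 2) ⟨max n1 n2, fun k hk => by
      have h1 := hn1 k (le_trans (le_max_left _ _) hk)
      have h2 := hn2 k (le_trans (le_max_right _ _) hk)
      have h3 : (finrank K (gn (zz A m0) (zz A k) (C.C (zz A m0))) : ℝ) ≤
          finrank K (C.C (zz A k)) := by
        exact_mod_cast Submodule.finrank_mono (gn_le_C C _ _)
      rw [gn_bot, finrank_bot, Nat.cast_zero, zero_add] at h1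
      nlinarith⟩
    have h6 : (R2 : ℝ) + R3 < R m0 + 1 := by linarith
    have h7 : R2 + R3 < R m0 + 1 := by exact_mod_cast h6
    omega
  refine ⟨(R m0 : ℕ), ?_, ?_, ?_, fun _ => ?_⟩
  · exact_mod_cast (by omega : 1 ≤ R m0)
  · rw [ENat.toENNReal_coe]
    exact tendsto_fin hal _ hubN (hlb' m0)
  · intro n
    rw [ENat.toENNReal_coe]
    exact le_mul_of (hubN n)
  · refine ⟨m0, r3, z3, by exact_mod_cast hN3, hz3, fun n x hx => ?_⟩
    exact gen_of hx3 (hG n hx)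

end Pool.Agent.Y417.ZI
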